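import Mathlib

namespace Pool.Agent.V11304.MW

open Finset

/-- The irreducible elements of a submonoid of `ℕ`. -/
def Irr (S : AddSubmonoid ℕ) : Set ℕ :=
  {x | x ∈ S ∧ x ≠ 0 ∧ ∀ y ∈ S, ∀ z ∈ S, y + z = x → y = 0 ∨ z = 0}

theorem closure_irr (S : AddSubmonoid ℕ) : AddSubmonoid.closure (Irr S) = S := by
  apply le_antisymm
  · rw [AddSubmonoid.closure_le]; intro x hx; exact hx.1
  · intro x hx
    induction x using Nat.strong_induction_on with
    | _ x ih =>
      by_cases h0 : x = 0
      · subst h0; exact zero_mem _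
      by_cases h : x ∈ Irr S
      · exact AddSubmonoid.subset_closure h
      · have : ∃ y ∈ S, ∃ z ∈ S, y + z = x ∧ y ≠ 0 ∧ z ≠ 0 := by
          by_contra hcon
          push Not at hcon
          apply h
          refine ⟨hx, h0, fun y hy z hz hyz => ?_⟩
          by_contra hc
          push Not at hc
          exact hc.2 (hcon y hy z hz hyz hc.1)
        obtain ⟨y, hy, z, hz, hyz, hy0, hz0⟩ := this
        rw [← hyz]
        exact add_mem (ih y (by omega) hy) (ih z (by omega) hz)

theorem irr_subset (S : AddSubmonoid ℕ) (G : Set ℕ) (h : AddSubmonoid.closure G = S) :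
    Irr S ⊆ G := by
  intro x hx
  have key : ∀ x ∈ AddSubmonoid.closure G, x ∈ Irr S → x ∈ G := by
    intro x hx
    induction hx using AddSubmonoid.closure_induction with
    | mem x hx => intro _; exact hx
    | zero => intro h0; exact absurd rfl h0.2.1
    | add x y hx hy ihx ihy =>
      intro hxy
      rcases hxy.2.2 x (h ▸ hx) y (h ▸ hy) rfl with h0 | h0
      · subst h0; rw [zero_add] at hxy ⊢; exact ihy hxy
      · subst h0; rw [add_zero] at hxy ⊢; exact ihx hxy
  exact key x (h ▸ hx.1) hx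

theorem irr_lt (S : AddSubmonoid ℕ) (m c : ℕ) (hm2 : 2 ≤ m) (hm : m ∈ S) (hcm : m ≤ c)
    (hc : ∀ x, c ≤ x → x ∈ S) (x : ℕ) (hx : x ∈ Irr S) : x < c + m := by
  by_contra h
  push Not at h
  rcases hx.2.2 m hm (x - m) (hc _ (by omega)) (by omega) with h0 | h0 <;> omega

theorem irr_finite (S : AddSubmonoid ℕ) (m c : ℕ) (hm2 : 2 ≤ m) (hm : m ∈ S) (hcm : m ≤ c)
    (hc : ∀ x, c ≤ x → x ∈ S) : (Irr S).Finite :=
  (Set.finite_Iio (c + m)).subset (fun x hx => irr_lt S m c hm2 hm hcm hc x hx)

/-- Wilf's inequality for numerical semigroups of depth at most two. -/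
theorem kaplan (S : AddSubmonoid ℕ) (m c : ℕ) (hm2 : 2 ≤ m) (hm : m ∈ S)
    (hmin : ∀ x, 0 < x → x < m → x ∉ S) (hcm : m ≤ c) (hc : ∀ x, c ≤ x → x ∈ S)
    (h2 : c ≤ 2 * m) [DecidablePred (· ∈ S)] :
    c ≤ (Irr S).ncard * ((range c).filter (· ∈ S)).card := by
  classical
  set A := (Finset.Ico m c).filter (· ∈ S) with hA
  set B := (Finset.Ico c (c+m)).filter (fun x => ∃ y ∈ A, ∃ z ∈ A, y + z = x) with hB
  have hL : ((range c).filter (· ∈ S)).card = A.card + 1 := by
    have : (range c).filter (· ∈ S) = insert 0 A := by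
      ext x
      simp only [mem_filter, mem_range, mem_insert, hA, mem_Ico]
      constructor
      · rintro ⟨h1, h2⟩
        by_cases h0 : x = 0
        · left; exact h0
        · right
          refine ⟨⟨?_, h1⟩, h2⟩
          by_contra hlt
          exact hmin x (by omega) (by omega) h2
      · rintro (h0 | ⟨⟨h1, h2⟩, h3⟩)
        · subst h0; exact ⟨by omega, zero_mem _⟩
        · exact ⟨h2, h3⟩
    rw [this, card_insert_of_notMem]
    simp only [hA, mem_filter, mem_Ico]
    rintro ⟨⟨h1, _⟩, _⟩
    omega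
  have hfin := irr_finite S m c hm2 hm hcm hc
  have hE : A.card + (m - B.card) ≤ (Irr S).ncard := by
    have hsub : ((A ∪ (Finset.Ico c (c+m) \ B) : Finset ℕ) : Set ℕ) ⊆ Irr S := by
      intro x hx
      rw [coe_union, Set.mem_union, mem_coe, mem_coe] at hx
      rcases hx with hx | hx
      · simp only [hA, mem_filter, mem_Ico] at hx
        refine ⟨hx.2, by omega, ?_⟩
        intro y hy z hz hyz
        by_contra hcon
        push Not at hcon
        have h1 : m ≤ y := by
          by_contra h; exact hmin y (by omega) (by omega) hy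
        have h3 : m ≤ z := by
          by_contra h; exact hmin z (by omega) (by omega) hz
        omega
      · rw [mem_sdiff, mem_Ico] at hx
        refine ⟨hc x hx.1.1, by omega, ?_⟩
        intro y hy z hz hyz
        by_contra hcon
        push Not at hcon
        have h1 : m ≤ y := by
          by_contra h; exact hmin y (by omega) (by omega) hy
        have h3 : m ≤ z := by
          by_contra h; exact hmin z (by omega) (by omega) hz
        apply hx.2
        simp only [hB, mem_filter, mem_Ico]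
        refine ⟨hx.1, y, ?_, z, ?_, hyz⟩
        · simp only [hA, mem_filter, mem_Ico]; exact ⟨⟨h1, by omega⟩, hy⟩
        · simp only [hA, mem_filter, mem_Ico]; exact ⟨⟨h3, by omega⟩, hz⟩
    have h1 := Set.ncard_le_ncard hsub hfin
    rw [Set.ncard_coe_finset] at h1
    have hdis : Disjoint A (Finset.Ico c (c+m) \ B) := by
      rw [Finset.disjoint_left]
      intro x hx hx'
      simp only [hA, mem_filter, mem_Ico] at hx
      rw [mem_sdiff, mem_Ico] at hx'
      omega
    rw [card_union_of_disjoint hdis, card_sdiff_of_subset (filter_subset _ _), Nat.card_Ico] at h1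
    have : c + m - c = m := by omega
    rw [this] at h1
    exact h1
  have hB1 : B.card ≤ c - m := by
    have : B ⊆ Finset.Ico (2 * m) (c + m) := by
      intro x hx
      simp only [hB, hA, mem_filter, mem_Ico] at hx
      obtain ⟨hx1, y, hy, z, hz, hyz⟩ := hx
      rw [mem_Ico]; omega
    have h := card_le_card this
    rw [Nat.card_Ico] at h
    omega
  have hB2 : 2 * B.card ≤ A.card * (A.card + 1) := by
    have : B ⊆ (A.sym2).image (fun s => Sym2.lift ⟨fun x y => x + y, fun x y => add_comm x y⟩ s) := by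
      intro x hx
      simp only [hB, mem_filter] at hx
      obtain ⟨hx1, y, hy, z, hz, hyz⟩ := hx
      rw [mem_image]
      exact ⟨s(y, z), by rw [mk_mem_sym2_iff]; exact ⟨hy, hz⟩, by simpa using hyz⟩
    have h := (card_le_card this).trans card_image_le
    rw [card_sym2, Nat.choose_two_right] at h
    have h' : (A.card + 1) * (A.card + 1 - 1) / 2 * 2 ≤ (A.card + 1) * (A.card + 1 - 1) :=
      Nat.div_mul_le_self _ _
    simp only [Nat.add_sub_cancel] at h h'
    nlinarith
  rw [hL]
  have hBm : B.card ≤ m := by omega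
  obtain ⟨f, hf⟩ : ∃ f, c = m + f := ⟨c - m, by omega⟩
  rcases Nat.eq_zero_or_pos A.card with hk | hk
  · -- c = m
    have hcm' : c = m := by
      by_contra hne
      have : m ∈ A := by
        simp only [hA, mem_filter, mem_Ico]; exact ⟨⟨le_refl _, by omega⟩, hm⟩
      rw [card_eq_zero] at hk
      rw [hk] at this
      simp at this
    have : B.card = 0 := by omega
    rw [hk] at hE ⊢
    omega
  · obtain ⟨u, hu⟩ : ∃ u, f = B.card + u := ⟨f - B.card, by omega⟩
    obtain ⟨v, hv⟩ : ∃ v, m = f + v := ⟨m - f, by omega⟩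
    have hE' : A.card + u + v ≤ (Irr S).ncard := by omega
    calc c = 2 * B.card + 2 * u + v := by omega
      _ ≤ A.card * (A.card + 1) + 2 * u + v := by omega
      _ ≤ (A.card + u + v) * (A.card + 1) := by nlinarith
      _ ≤ (Irr S).ncard * (A.card + 1) := Nat.mul_le_mul_right _ hE'

/-- Symmetry for embedding dimension two. -/
theorem two_gen (S : AddSubmonoid ℕ) (m y c : ℕ) (hm2 : 2 ≤ m) (hy : m < y)
    (hS : ∀ z, z ∈ S ↔ ∃ i j : ℕ, i * m + j * y = z) (hc : ∀ x, c ≤ x → x ∈ S) (hc1 : c - 1 ∉ S)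
    (hcm : m ≤ c) [DecidablePred (· ∈ S)] :
    ((range c).filter (· ∉ S)).card ≤ ((range c).filter (· ∈ S)).card := by
  have hcop : Nat.Coprime m y := by
    obtain ⟨i, j, h1⟩ := (hS c).1 (hc c le_rfl)
    obtain ⟨i', j', h2⟩ := (hS (c+1)).1 (hc (c+1) (by omega))
    have d1 : Nat.gcd m y ∣ c := by
      rw [← h1]
      exact dvd_add (Dvd.dvd.mul_left (Nat.gcd_dvd_left _ _) _)
        (Dvd.dvd.mul_left (Nat.gcd_dvd_right _ _) _)
    have d2 : Nat.gcd m y ∣ c + 1 := by
      rw [← h2]
      exact dvd_add (Dvd.dvd.mul_left (Nat.gcd_dvd_left _ _) _)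
        (Dvd.dvd.mul_left (Nat.gcd_dvd_right _ _) _)
    have d3 : Nat.gcd m y ∣ 1 := (Nat.dvd_add_right d1).1 d2
    exact Nat.dvd_one.1 d3
  -- representation of gaps
  have gaprep : ∀ x, x ∉ S → ∃ i t : ℕ, i < y ∧ 1 ≤ t ∧ i * m = x + t * y := by
    intro x hx
    obtain ⟨i, hi1, hi0⟩ := Nat.exists_mul_mod_eq_of_coprime x hcop (by omega)
    have hmod : (i * m) % y = x % y := by
      rw [mul_comm]; exact hi0
    rcases Nat.lt_or_ge x (i * m) with h | h
    · have hd : y ∣ i * m - x := (Nat.modEq_iff_dvd' h.le).1 (by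
        show x % y = (i * m) % y
        exact hmod.symm)
      obtain ⟨t, ht⟩ := hd
      refine ⟨i, t, hi1, ?_, ?_⟩
      · by_contra h0
        have : t = 0 := by omega
        subst this
        omega
      · have : y * t = t * y := mul_comm _ _
        omega
    · exfalso
      apply hx
      have hd : y ∣ x - i * m := (Nat.modEq_iff_dvd' h).1 (by
        show (i * m) % y = x % y
        exact hmod)
      obtain ⟨t, ht⟩ := hd
      rw [hS]
      refine ⟨i, t, ?_⟩
      have : y * t = t * y := mul_comm _ _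
      omega
  -- uniqueness : element z with z + t*y = i*m, i<y, t≥1 is not in S
  have hneg : ∀ z i t : ℕ, i < y → 1 ≤ t → i * m = z + t * y → z ∉ S := by
    intro z i t hi ht h hz
    obtain ⟨p, q, hpq⟩ := (hS z).1 hz
    -- i*m = p*m + (q+t) * y
    have h1 : i * m = p * m + (q + t) * y := by rw [h, ← hpq]; ring
    have hpi : p ≤ i := by
      by_contra hh
      push Not at hh
      have : i * m < p * m := by nlinarith
      omega
    have h2 : (i - p) * m = (q + t) * y := by
      rw [Nat.sub_mul]; omega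
    have h3 : y ∣ (i - p) * m := ⟨q + t, by rw [h2]; ring⟩
    have h4 : y ∣ i - p := (Nat.Coprime.dvd_of_dvd_mul_right hcop.symm h3)
    have h5 : i - p = 0 := by
      by_contra hne
      have := Nat.le_of_dvd (by omega) h4
      omega
    rw [h5] at h2
    have : 0 < (q + t) * y := Nat.mul_pos (by omega) (by omega)
    omega
  -- the Frobenius number
  obtain ⟨i, t, hi, ht, hF⟩ := gaprep _ hc1
  have ht1 : t = 1 := by
    by_contra hne
    refine hneg (c - 1 + y) i (t - 1) hi (by omega) ?_ (hc _ (by omega))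
    rw [hF]
    obtain ⟨t', rfl⟩ : ∃ t', t = t' + 1 := ⟨t - 1, by omega⟩
    simp only [Nat.add_sub_cancel]
    ring
  have hi1 : i = y - 1 := by
    by_contra hne
    refine hneg (c - 1 + m) (i + 1) t (by omega) ht ?_ (hc _ (by omega))
    rw [add_mul, hF]; ring
  have hmap : ∀ x, x < c → x ∉ S → c - 1 - x ∈ S := by
    intro x hxc hx
    obtain ⟨i', t', hi', ht', hx'⟩ := gaprep x hx
    rw [hS]
    refine ⟨y - 1 - i', t' - 1, ?_⟩
    subst ht1
    subst hi1
    have e1 : (y - 1 - i') * m = (y - 1) * m - i' * m := Nat.sub_mul _ _ _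
    have e2 : (t' - 1) * y = t' * y - 1 * y := Nat.sub_mul _ _ _
    have : i' * m ≤ (y - 1) * m := Nat.mul_le_mul_right _ (by omega)
    have h1 : y ≤ t' * y := Nat.le_mul_of_pos_left _ (by omega)
    rw [e1, e2]
    omega
  apply Finset.card_le_card_of_injOn (fun x => c - 1 - x)
  · intro x hx
    simp only [coe_filter, mem_range, Set.mem_ofPred_eq] at hx ⊢
    exact ⟨by omega, hmap x hx.1 hx.2⟩
  · intro x hx x' hx' h
    simp only [coe_filter, mem_range, Set.mem_ofPred_eq] at hx hx' h
    omega

/-- Apéry counting for embedding dimension three. -/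
theorem three_gen (S : AddSubmonoid ℕ) (m x y c t : ℕ) (hm2 : 2 ≤ m) (hx : m < x) (hy : m < y)
    (hS : ∀ z, z ∈ S ↔ ∃ i j k : ℕ, i * m + j * x + k * y = z) (hc : ∀ x, c ≤ x → x ∈ S)
    (ht : c + m ≤ (t + 1) * (m + 1)) :
    m ≤ (((range (t+1)) ×ˢ (range (t+1))).filter (fun p => p.1 + p.2 ≤ t)).card := by
  classical
  have hmS : m ∈ S := (hS m).2 ⟨1, 0, 0, by ring⟩
  rw [← Finset.card_range m] 
  rw [Finset.card_range m]
  conv_lhs => rw [← Finset.card_range m]
  apply Finset.card_le_card_of_surjOn (fun p : ℕ × ℕ => (p.1 * x + p.2 * y) % m)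
  intro r hr
  rw [mem_coe, mem_range] at hr
  have hex : ∃ w, w ∈ S ∧ w % m = r := by
    refine ⟨r + m * c, hc _ ?_, ?_⟩
    · have : c ≤ m * c := Nat.le_mul_of_pos_left _ (by omega)
      omega
    · rw [Nat.add_mul_mod_self_left, Nat.mod_eq_of_lt hr]
  set w := Nat.find hex with hw
  obtain ⟨hwS, hwr⟩ := Nat.find_spec hex
  rw [← hw] at hwS hwr
  have hwc : w < c + m := by
    by_contra hcon
    push Not at hcon
    have : w - m ∈ S ∧ (w - m) % m = r := by
      refine ⟨hc _ (by omega), ?_⟩
      rw [← hwr]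
      exact (Nat.mod_eq_sub_mod (by omega)).symm
    have := Nat.find_min' hex this
    omega
  obtain ⟨i, j, k, hijk⟩ := (hS w).1 hwS
  have hi : i = 0 := by
    by_contra h0
    obtain ⟨i', rfl⟩ : ∃ i', i = i' + 1 := ⟨i - 1, by omega⟩
    have hle : m ≤ w := by
      rw [← hijk]; nlinarith
    have : w - m ∈ S ∧ (w - m) % m = r := by
      refine ⟨(hS _).2 ⟨i', j, k, ?_⟩, ?_⟩
      · rw [← hijk]
        have : (i' + 1) * m = i' * m + m := by ring
        omega
      · rw [← hwr]
        exact (Nat.mod_eq_sub_mod hle).symm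
    have := Nat.find_min' hex this
    omega
  subst hi
  have hjk : j + k ≤ t := by
    by_contra hcon
    push Not at hcon
    have h1 : j * (m + 1) ≤ j * x := Nat.mul_le_mul_left _ hx
    have h2 : k * (m + 1) ≤ k * y := Nat.mul_le_mul_left _ hy
    have h3 : (t + 1) * (m + 1) ≤ (j + k) * (m + 1) := Nat.mul_le_mul_right _ hcon
    have h4 : (j + k) * (m + 1) = j * (m + 1) + k * (m + 1) := by ring
    omega
  refine ⟨(j, k), ?_, ?_⟩
  · simp only [coe_filter, mem_product, mem_range, Set.mem_ofPred_eq]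
    omega
  · show (j * x + k * y) % m = r
    rw [← hwr, ← hijk]
    congr 1
    ring

end Pool.Agent.V11304.MW
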