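import Pool.Agent.V11304.MW.Basic

namespace Pool.Agent.V11304.MW

open Finset

/-- The modular semigroup `S(a,b,1)` as a submonoid of `ℕ`. -/
def modS (a b : ℕ) : AddSubmonoid ℕ where
  carrier := {x | a * x % b ≤ x}
  zero_mem' := by simp
  add_mem' := by
    intro x y hx hy
    have hx' : a * x % b ≤ x := hx
    have hy' : a * y % b ≤ y := hy
    show a * (x + y) % b ≤ x + y
    rw [mul_add, Nat.add_mod]
    exact (Nat.mod_le _ _).trans (by omega)

theorem mem_modS (a b x : ℕ) : x ∈ modS a b ↔ a * x % b ≤ x := Iff.rfl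

theorem rsum (a b x : ℕ) (hb : 0 < b) (hx : x ≤ b) :
    a * (b - x) % b + a * x % b = 0 ∨ a * (b - x) % b + a * x % b = b := by
  have h1 : (a * (b - x) % b + a * x % b) % b = 0 := by
    rw [← Nat.add_mod, ← mul_add, Nat.sub_add_cancel hx, Nat.mul_mod_left]
  have h2 := Nat.mod_lt (a * (b - x)) hb
  have h3 := Nat.mod_lt (a * x) hb
  obtain ⟨t, ht⟩ := Nat.dvd_of_mod_eq_zero h1
  have : t < 2 := by
    by_contra h
    push Not at h
    have : b * 2 ≤ b * t := Nat.mul_le_mul_left _ h
    omega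
  interval_cases t <;> omega

theorem ge_mem (a b x : ℕ) (hb : 0 < b) (hx : b ≤ x) : x ∈ modS a b := by
  rw [mem_modS]
  have := Nat.mod_lt (a * x) hb
  omega

theorem compl_mem (a b x : ℕ) (hb : 0 < b) (hxb : x ≤ b) (hx : x ∉ modS a b) :
    b - x ∈ modS a b := by
  rw [mem_modS] at hx ⊢
  rcases rsum a b x hb hxb with h | h <;> omega

theorem gap_count (a b c : ℕ) (hb : 0 < b) (hc : c ≤ b) [DecidablePred (· ∈ modS a b)] :
    2 * ((range c).filter (· ∉ modS a b)).card +
      ((Finset.Ioo 0 b).filter (fun x => a * x % b = 0)).card ≤ b - 1 := by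
  classical
  set G := (range c).filter (· ∉ modS a b) with hG
  set Z := (Finset.Ioo 0 b).filter (fun x => a * x % b = 0) with hZ
  have hG0 : ∀ x ∈ G, 0 < x ∧ x < b ∧ x ∉ modS a b := by
    intro x hx
    rw [hG, mem_filter, mem_range] at hx
    refine ⟨?_, by omega, hx.2⟩
    rcases Nat.eq_zero_or_pos x with h | h
    · subst h; exact absurd (zero_mem _) hx.2
    · exact h
  have hinj : (G.image (fun x => b - x)).card = G.card := by
    apply card_image_of_injOn
    intro x hx y hy h
    have h1 := hG0 x hx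
    have h2 := hG0 y hy
    simp only at h
    omega
  have hd1 : Disjoint G (G.image (fun x => b - x)) := by
    rw [Finset.disjoint_left]
    intro x hx hx'
    rw [mem_image] at hx'
    obtain ⟨y, hy, hyx⟩ := hx'
    have h1 := hG0 x hx
    have h2 := hG0 y hy
    have := compl_mem a b y hb (by omega) h2.2.2
    rw [hyx] at this
    exact h1.2.2 this
  have hd2 : Disjoint (G ∪ G.image (fun x => b - x)) Z := by
    rw [Finset.disjoint_left]
    intro x hx hz
    rw [hZ, mem_filter, mem_Ioo] at hz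
    rw [mem_union, mem_image] at hx
    rcases hx with hx | ⟨y, hy, hyx⟩
    · exact (hG0 x hx).2.2 ((mem_modS _ _ _).2 (by omega))
    · have h2 := hG0 y hy
      have h3 := h2.2.2
      rw [mem_modS] at h3
      rw [← hyx] at hz
      rcases rsum a b y hb (by omega) with h | h
      · omega
      · have := Nat.mod_lt (a * y) hb
        omega
  have hsub : (G ∪ G.image (fun x => b - x)) ∪ Z ⊆ Finset.Ioo 0 b := by
    intro x hx
    rw [mem_union, mem_union, mem_image] at hx
    rcases hx with (hx | ⟨y, hy, hyx⟩) | hx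
    · have := hG0 x hx
      rw [mem_Ioo]; omega
    · have := hG0 y hy
      rw [mem_Ioo]; omega
    · exact (mem_filter.1 hx).1
  have h := card_le_card hsub
  rw [card_union_of_disjoint hd2, card_union_of_disjoint hd1, hinj, Nat.card_Ioo] at h
  omega

theorem m_irr (S : AddSubmonoid ℕ) (m : ℕ) (hm2 : 2 ≤ m) (hm : m ∈ S)
    (hmin : ∀ x, 0 < x → x < m → x ∉ S) : m ∈ Irr S := by
  refine ⟨hm, by omega, ?_⟩
  intro y hy z hz hyz
  by_contra hcon
  push Not at hcon
  exact hmin y (by omega) (by omega) hy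

theorem irr_ge (S : AddSubmonoid ℕ) (m : ℕ) 
    (hmin : ∀ x, 0 < x → x < m → x ∉ S) (x : ℕ) (hx : x ∈ Irr S) : m ≤ x := by
  by_contra h
  have := hx.2.1
  exact hmin x (by omega) (by omega) hx.1

theorem two_le_e (S : AddSubmonoid ℕ) (m c : ℕ) (hm2 : 2 ≤ m) (hm : m ∈ S)
    (hmin : ∀ x, 0 < x → x < m → x ∉ S) (hcm : m ≤ c) (hc : ∀ x, c ≤ x → x ∈ S) :
    2 ≤ (Irr S).ncard := by
  have hfin := irr_finite S m c hm2 hm hcm hc
  have hmI := m_irr S m hm2 hm hmin
  by_contra hlt
  have h1 : (Irr S).ncard = 1 := by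
    have : 0 < (Irr S).ncard := (Set.ncard_pos hfin).2 ⟨m, hmI⟩
    omega
  obtain ⟨z, hz⟩ := Set.ncard_eq_one.1 h1
  have hzm : z = m := by
    rw [hz] at hmI; exact hmI.symm
  subst hzm
  have hcl := closure_irr S
  rw [hz] at hcl
  have h2 : c ∈ AddSubmonoid.closure {z} := by rw [hcl]; exact hc c le_rfl
  have h3 : c + 1 ∈ AddSubmonoid.closure {z} := by rw [hcl]; exact hc (c + 1) (by omega)
  rw [AddSubmonoid.mem_closure_singleton] at h2 h3
  obtain ⟨i, hi⟩ := h2
  obtain ⟨j, hj⟩ := h3
  simp only [smul_eq_mul] at hi hj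
  have d1 : z ∣ c := ⟨i, by rw [← hi]; ring⟩
  have d2 : z ∣ c + 1 := ⟨j, by rw [← hj]; ring⟩
  have := (Nat.dvd_add_right d1).1 d2
  have := Nat.le_of_dvd one_pos this
  omega

theorem e_two (S : AddSubmonoid ℕ) (m : ℕ) (hm2 : 2 ≤ m) (hm : m ∈ S)
    (hmin : ∀ x, 0 < x → x < m → x ∉ S) (he : (Irr S).ncard = 2) :
    ∃ y, m < y ∧ ∀ z, z ∈ S ↔ ∃ i j : ℕ, i * m + j * y = z := by
  have hmI := m_irr S m hm2 hm hmin
  obtain ⟨u, v, huv, hI⟩ := Set.ncard_eq_two.1 he
  have key : ∀ y, y ≠ m → Irr S = {m, y} → ∃ y, m < y ∧ ∀ z, z ∈ S ↔ ∃ i j : ℕ, i * m + j * y = z := by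
    intro y hym hIy
    refine ⟨y, ?_, ?_⟩
    · have := irr_ge S m hmin y (by rw [hIy]; simp)
      omega
    · intro z
      have hcl := closure_irr S
      rw [hIy] at hcl
      rw [← hcl, AddSubmonoid.mem_closure_pair]
      simp only [smul_eq_mul]
  rw [hI] at hmI
  rcases hmI with h | h
  · subst h
    exact key v huv.symm hI
  · have h' : m = v := h
    subst h'
    exact key u huv (by rw [hI]; exact Set.pair_comm _ _)

theorem closure_triple (x y z w : ℕ) :
    w ∈ AddSubmonoid.closure ({x, y, z} : Set ℕ) ↔ ∃ i j k : ℕ, i * x + j * y + k * z = w := by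
  constructor
  · intro h
    induction h using AddSubmonoid.closure_induction with
    | mem w hw =>
      rcases hw with h | h | h
      · exact ⟨1, 0, 0, by rw [h]; ring⟩
      · exact ⟨0, 1, 0, by rw [h]; ring⟩
      · have h' : w = z := h
        exact ⟨0, 0, 1, by rw [h']; ring⟩
    | zero => exact ⟨0, 0, 0, by ring⟩
    | add u v hu hv ihu ihv =>
      obtain ⟨i, j, k, h⟩ := ihu
      obtain ⟨i', j', k', h'⟩ := ihv
      exact ⟨i + i', j + j', k + k', by rw [← h, ← h']; ring⟩
  · rintro ⟨i, j, k, h⟩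
    rw [← h]
    have hx : x ∈ AddSubmonoid.closure ({x, y, z} : Set ℕ) := AddSubmonoid.subset_closure (by simp)
    have hy : y ∈ AddSubmonoid.closure ({x, y, z} : Set ℕ) := AddSubmonoid.subset_closure (by simp)
    have hz : z ∈ AddSubmonoid.closure ({x, y, z} : Set ℕ) := AddSubmonoid.subset_closure (by simp)
    have := add_mem (add_mem (nsmul_mem hx i) (nsmul_mem hy j)) (nsmul_mem hz k)
    simpa only [smul_eq_mul] using this

theorem e_three (S : AddSubmonoid ℕ) (m : ℕ) (hm2 : 2 ≤ m) (hm : m ∈ S)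
    (hmin : ∀ x, 0 < x → x < m → x ∉ S) (he : (Irr S).ncard = 3) :
    ∃ x y, m < x ∧ m < y ∧ ∀ z, z ∈ S ↔ ∃ i j k : ℕ, i * m + j * x + k * y = z := by
  have hmI := m_irr S m hm2 hm hmin
  obtain ⟨u, v, w, huv, huw, hvw, hI⟩ := Set.ncard_eq_three.1 he
  have key : ∀ x y, x ≠ m → y ≠ m → Irr S = {m, x, y} →
      ∃ x y, m < x ∧ m < y ∧ ∀ z, z ∈ S ↔ ∃ i j k : ℕ, i * m + j * x + k * y = z := by
    intro x y hxm hym hIy
    refine ⟨x, y, ?_, ?_, ?_⟩
    · have := irr_ge S m hmin x (by rw [hIy]; simp)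
      omega
    · have := irr_ge S m hmin y (by rw [hIy]; simp)
      omega
    · intro z
      have hcl := closure_irr S
      rw [hIy] at hcl
      rw [← hcl, closure_triple]
  rw [hI] at hmI
  rcases hmI with h | h | h
  · subst h
    exact key v w huv.symm huw.symm hI
  · subst h
    exact key u w huv hvw.symm (by rw [hI]; ext t; simp; tauto)
  · have h' : m = w := h
    subst h'
    exact key u v huw hvw (by rw [hI]; ext t; simp; tauto)

theorem card10 : (((range (3+1)) ×ˢ (range (3+1))).filter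
    (fun p : ℕ × ℕ => p.1 + p.2 ≤ 3)).card = 10 := by decide

theorem card6 : (((range (2+1)) ×ˢ (range (2+1))).filter
    (fun p : ℕ × ℕ => p.1 + p.2 ≤ 2)).card = 6 := by decide

theorem filt_add (S : AddSubmonoid ℕ) (c : ℕ) [DecidablePred (· ∈ S)] :
    ((range c).filter (· ∈ S)).card + ((range c).filter (· ∉ S)).card = c := by
  have := Finset.card_filter_add_card_filter_not (s := range c) (fun x => x ∈ S)
  rw [card_range] at this
  exact this

/-- The special case `a m ≡ 0`. -/
theorem special (a b m c : ℕ) (hb : 0 < b) (hm2 : 2 ≤ m) (hm : m ∈ modS a b)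
    (hmin : ∀ x, 0 < x → x < m → x ∉ modS a b) (hcm : m ≤ c) (hc : ∀ x, c ≤ x → x ∈ modS a b)
    (hc1 : c - 1 ∉ modS a b) (h0 : a * m % b = 0) [DecidablePred (· ∈ modS a b)] :
    (Irr (modS a b)).ncard * ((range c).filter (· ∉ modS a b)).card + c ≤
      (Irr (modS a b)).ncard * c := by
  have hcb : c ≤ b := by
    by_contra h
    exact hc1 (ge_mem a b _ hb (by omega))
  have hadd := filt_add (modS a b) c
  set g := ((range c).filter (· ∉ modS a b)).card with hg
  set L := ((range c).filter (· ∈ modS a b)).card with hL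
  have he2 := two_le_e (modS a b) m c hm2 hm hmin hcm hc
  set e := (Irr (modS a b)).ncard with he
  -- from `c ≤ e * L`
  have fromL : c ≤ e * L → e * g + c ≤ e * c := by
    intro h
    have : e * c = e * L + e * g := by rw [← hadd]; ring
    omega
  -- b = d * m
  have hdvd : m ∣ b := by
    by_contra hnd
    have h1 : 0 < b % m := Nat.pos_of_ne_zero (fun h => hnd (Nat.dvd_of_mod_eq_zero h))
    have h2 : b % m < m := Nat.mod_lt _ (by omega)
    apply hmin (b % m) h1 h2
    rw [mem_modS]
    have h3 : (a * (b % m)) % b = 0 := by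
      have h4 : a * (b % m) + (b / m) * (a * m) = a * b := by
        have := Nat.mod_add_div b m
        calc a * (b % m) + (b / m) * (a * m) = a * (b % m + m * (b / m)) := by ring
          _ = a * b := by rw [this]
      have h5 : b ∣ (b / m) * (a * m) := Dvd.dvd.mul_left (Nat.dvd_of_mod_eq_zero h0) _
      have h6 : b ∣ a * (b % m) := (Nat.dvd_add_left h5).1 (by rw [h4]; exact Dvd.intro_left a rfl)
      exact Nat.mod_eq_zero_of_dvd h6
    omega
  obtain ⟨d, hd⟩ := hdvd
  have hd0 : 0 < d := by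
    rcases Nat.eq_zero_or_pos d with h | h
    · subst h; omega
    · exact h
  -- number of zeros
  have hZ : d - 1 ≤ ((Finset.Ioo 0 b).filter (fun x => a * x % b = 0)).card := by
    have : ((Finset.Ioo 0 d).image (fun j => m * j)).card = d - 1 := by
      rw [card_image_of_injective, Nat.card_Ioo]
      · omega
      · intro x y hxy
        exact Nat.eq_of_mul_eq_mul_left (by omega) hxy
    rw [← this]
    apply card_le_card
    intro x hx
    rw [mem_image] at hx
    obtain ⟨j, hj, rfl⟩ := hx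
    rw [mem_Ioo] at hj
    rw [mem_filter, mem_Ioo]
    refine ⟨⟨Nat.mul_pos (by omega) hj.1, ?_⟩, ?_⟩
    · rw [hd]; exact Nat.mul_lt_mul_of_pos_left hj.2 (by omega)
    · apply Nat.mod_eq_zero_of_dvd
      rw [← mul_assoc]
      exact Dvd.dvd.mul_right (Nat.dvd_of_mod_eq_zero h0) _
  have hcount := gap_count a b c hb hcb
  rw [← hg] at hcount
  have h2g : 2 * g + d ≤ b := by omega
  have hd1 : d ≠ 1 := by
    intro h
    subst h
    -- b = m, but b - 1 ∈ S
    have h1 : b - 1 ∈ modS a b := by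
      rw [mem_modS]
      have := Nat.mod_lt (a * (b - 1)) hb
      omega
    exact hmin (b - 1) (by omega) (by omega) h1
  by_cases hd2 : d = 2
  · apply fromL
    exact kaplan (modS a b) m c hm2 hm hmin hcm hc (by rw [hd, hd2] at hcb; omega)
  have hd3 : 3 ≤ d := by omega
  by_cases hee2 : e = 2
  · obtain ⟨y, hy, hS⟩ := e_two (modS a b) m hm2 hm hmin hee2
    have := two_gen (modS a b) m y c hm2 hy hS hc hc1 hcm
    rw [hee2]
    omega
  by_cases hk2 : c ≤ 2 * m
  · apply fromL
    exact kaplan (modS a b) m c hm2 hm hmin hcm hc hk2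
  push Not at hk2
  by_cases hspec : e = 3 ∧ d = 3
  · obtain ⟨he3, hdd⟩ := hspec
    obtain ⟨x, y, hx, hy, hS⟩ := e_three (modS a b) m hm2 hm hmin he3
    have h10 := three_gen (modS a b) m x y c 3 hm2 hx hy hS hc (by
      rw [hd, hdd] at hcb; omega)
    rw [card10] at h10
    rw [he3]
    rw [hdd] at hd h2g
    omega
  -- main case
  have hcl : b + 1 ≤ c + (d + m) := by
    -- a = d * k
    have hak : d ∣ a := by
      obtain ⟨q, hq⟩ := Nat.dvd_of_mod_eq_zero h0
      refine ⟨q, ?_⟩
      apply Nat.eq_of_mul_eq_mul_left (show 0 < m by omega)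
      calc m * a = a * m := by ring
        _ = b * q := hq
        _ = m * (d * q) := by rw [hd]; ring
    obtain ⟨k, hk⟩ := hak
    have hr : ∀ x, a * x % b = d * (k * x % m) := by
      intro x
      rw [hk, hd, mul_comm m d, mul_assoc, Nat.mul_mod_mul_left]
    have hcop : Nat.Coprime k m := by
      by_contra hnc
      obtain ⟨p, hp, hpk, hpm⟩ := Nat.Prime.not_coprime_iff_dvd.1 hnc
      obtain ⟨m1, hm1⟩ := hpm
      obtain ⟨k1, hk1⟩ := hpk
      have hm1pos : 0 < m1 := by
        rcases Nat.eq_zero_or_pos m1 with h | h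
        · subst h; omega
        · exact h
      have hlt : m1 < m := by
        have := hp.two_le
        rw [hm1]; nlinarith
      apply hmin m1 hm1pos hlt
      rw [mem_modS, hr]
      have : k * m1 % m = 0 := by
        apply Nat.mod_eq_zero_of_dvd
        rw [hk1, hm1]
        exact ⟨k1, by ring⟩
      rw [this]; omega
    obtain ⟨x0, hx0, hx01⟩ := Nat.exists_mul_mod_eq_one_of_coprime hcop (by omega : 1 < m)
    -- x ≡ x0 mod m, d < x ≤ d+m
    set y := x0 + m * (d + 1) with hy
    have hyd : d + 1 ≤ y := by nlinarith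
    set x := d + 1 + (y - (d + 1)) % m with hx
    have hxm : x % m = x0 % m := by
      have h1 : x ≡ y [MOD m] := by
        have h2 : (y - (d + 1)) % m ≡ y - (d + 1) [MOD m] := Nat.mod_modEq _ _
        have h3 := Nat.ModEq.add_left (d + 1) h2
        have h4 : d + 1 + (y - (d + 1)) = y := by omega
        rw [h4] at h3
        exact h3
      have h5 : y % m = x0 % m := by rw [hy, Nat.add_mul_mod_self_left]
      rw [← h5]; exact h1
    have hxle : x ≤ d + m := by
      have := Nat.mod_lt (y - (d + 1)) (by omega : 0 < m)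
      omega
    have hrx : a * x % b = d := by
      rw [hr, Nat.mul_mod, hxm, ← Nat.mul_mod, hx01, mul_one]
    by_contra hcon
    push Not at hcon
    have hxb : x ≤ b := by omega
    have h6 : b - x ∈ modS a b := hc _ (by omega)
    rw [mem_modS] at h6
    rcases rsum a b x hb hxb with h | h <;> rw [hrx] at h <;> omega
  -- final inequality
  have he3 : 3 ≤ e := by omega
  obtain ⟨m', rfl⟩ : ∃ m', m = m' + 1 := ⟨m - 1, by omega⟩
  obtain ⟨d', rfl⟩ : ∃ d', d = d' + 1 := ⟨d - 1, by omega⟩
  obtain ⟨e', hee'⟩ : ∃ e', e = e' + 1 := ⟨e - 1, by omega⟩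
  rw [hee']
  -- 2g ≤ (d'+1) m' ; c ≥ d' m'
  have h2g' : 2 * g ≤ (d' + 1) * m' := by
    have : b = (d' + 1) * m' + (d' + 1) := by rw [hd]; ring
    omega
  have hc' : d' * m' ≤ c := by
    have : b = d' * m' + (m' + 1 + d') := by rw [hd]; ring
    omega
  -- need (e'+1) g + c ≤ (e'+1) c, i.e. (e'+1) g ≤ e' c
  have hkey : (e' + 1) * (d' + 1) ≤ 2 * (e' * d') := by
    -- (e'-1)(d'-1) ≥ 2
    have h1 : 2 ≤ e' := by omega
    have h2 : 2 ≤ d' := by omega
    have h3 : 3 ≤ e' ∨ 3 ≤ d' := by omega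
    rcases h3 with h3 | h3 <;> nlinarith
  have h7 : 2 * ((e' + 1) * g) ≤ 2 * (e' * c) := by
    calc 2 * ((e' + 1) * g) = (e' + 1) * (2 * g) := by ring
      _ ≤ (e' + 1) * ((d' + 1) * m') := Nat.mul_le_mul_left _ h2g'
      _ = ((e' + 1) * (d' + 1)) * m' := by ring
      _ ≤ (2 * (e' * d')) * m' := Nat.mul_le_mul_right _ hkey
      _ = 2 * e' * (d' * m') := by ring
      _ ≤ 2 * e' * c := Nat.mul_le_mul_left _ hc'
      _ = 2 * (e' * c) := by ring
  have h8 : (e' + 1) * c = e' * c + c := by ring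
  omega

/-- The generic case `0 < a m mod b < m`. -/
theorem generic (a b m c : ℕ) (hb : 0 < b) (hm2 : 2 ≤ m) (hm : m ∈ modS a b)
    (hmin : ∀ x, 0 < x → x < m → x ∉ modS a b) (hcm : m ≤ c) (hc : ∀ x, c ≤ x → x ∈ modS a b)
    (hc1 : c - 1 ∉ modS a b) (h0 : a * m % b ≠ 0) (h1 : a * m % b ≠ m)
    [DecidablePred (· ∈ modS a b)] :
    (Irr (modS a b)).ncard * ((range c).filter (· ∉ modS a b)).card + c ≤
      (Irr (modS a b)).ncard * c := by
  have hcb : c ≤ b := by
    by_contra h
    exact hc1 (ge_mem a b _ hb (by omega))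
  have hadd := filt_add (modS a b) c
  have hcount := gap_count a b c hb hcb
  set g := ((range c).filter (· ∉ modS a b)).card with hg
  set L := ((range c).filter (· ∈ modS a b)).card with hL
  have he2 := two_le_e (modS a b) m c hm2 hm hmin hcm hc
  set e := (Irr (modS a b)).ncard with he
  have fromL : c ≤ e * L → e * g + c ≤ e * c := by
    intro h
    have : e * c = e * L + e * g := by rw [← hadd]; ring
    omega
  have hmlt : a * m % b < m := lt_of_le_of_ne hm h1
  -- c = b - m + 1
  have hcval : c + m = b + 1 := by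
    have h2 : b - m ∉ modS a b := by
      rw [mem_modS]
      rcases rsum a b m hb (by omega) with h | h <;> omega
    have h3 : b - m < c := by
      by_contra h; exact h2 (hc _ (by omega))
    have h4 : c - 1 ≤ b - m := by
      by_contra h
      have h5 : b - (c - 1) ∉ modS a b := hmin _ (by omega) (by omega)
      have h6 := compl_mem a b _ hb (by omega) h5
      have h7 : b - (b - (c - 1)) = c - 1 := by omega
      rw [h7] at h6
      exact hc1 h6
    omega
  by_cases hk2 : c ≤ 2 * m
  · apply fromL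
    exact kaplan (modS a b) m c hm2 hm hmin hcm hc hk2
  push Not at hk2
  by_cases hee2 : e = 2
  · obtain ⟨y, hy, hS⟩ := e_two (modS a b) m hm2 hm hmin hee2
    have := two_gen (modS a b) m y c hm2 hy hS hc hc1 hcm
    rw [hee2]
    omega
  have h2g : 2 * g + 1 ≤ b := by omega
  by_cases hee3 : e = 3
  · rw [hee3]
    by_cases h4m : 4 * m ≤ b + 7
    · omega
    · exfalso
      push Not at h4m
      obtain ⟨x, y, hx, hy, hS⟩ := e_three (modS a b) m hm2 hm hmin hee3
      have h10 := three_gen (modS a b) m x y c 3 hm2 hx hy hS hc (by omega)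
      rw [card10] at h10
      have h6 := three_gen (modS a b) m x y c 2 hm2 hx hy hS hc (by omega)
      rw [card6] at h6
      omega
  · have he4 : 4 ≤ e := by omega
    obtain ⟨e', hee'⟩ : ∃ e', e = e' + 4 := ⟨e - 4, by omega⟩
    rw [hee']
    -- 6 (e'+4) g ≤ 3 (e'+4)(b-1);  6 (e'+3) c ≥ 4 (e'+3) (b+1)
    have h5 : 2 * (b + 1) ≤ 3 * c + 1 := by omega
    have h6 : (e' + 4) * (2 * g + 1) ≤ (e' + 4) * b := Nat.mul_le_mul_left _ h2g
    have h7 : (e' + 3) * (2 * (b + 1)) ≤ (e' + 3) * (3 * c + 1) := Nat.mul_le_mul_left _ h5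
    nlinarith

theorem dual_aux (A A' b x : ℕ) (h : A + A' = b + 1) (hx : A * x % b ≤ x) :
    A' * x % b = (x - A * x % b) % b := by
  have h1 : A' * x + A * x % b ≡ (x - A * x % b) + A * x % b [MOD b] := by
    rw [Nat.sub_add_cancel hx]
    have h2 : A' * x + A * x % b ≡ A' * x + A * x [MOD b] :=
      Nat.ModEq.add_left _ (Nat.mod_modEq _ _)
    have h3 : A' * x + A * x = x + b * x := by
      calc A' * x + A * x = (A + A') * x := by ring
        _ = x + b * x := by rw [h]; ring
    rw [h3] at h2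
    refine h2.trans ?_
    show (x + b * x) % b = x % b
    rw [Nat.add_mul_mod_self_left]
  exact Nat.ModEq.add_right_cancel' _ h1

theorem dual (A A' b : ℕ) (h : A + A' = b + 1) : modS A b = modS A' b := by
  ext x
  rw [mem_modS, mem_modS]
  constructor
  · intro hx
    rw [dual_aux A A' b x h hx]
    exact (Nat.mod_le _ _).trans (Nat.sub_le _ _)
  · intro hx
    rw [dual_aux A' A b x (by omega) hx]
    exact (Nat.mod_le _ _).trans (Nat.sub_le _ _)

theorem modS_mod (a b : ℕ) : modS a b = modS (a % b) b := by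
  ext x
  rw [mem_modS, mem_modS, Nat.mod_mul_mod]

/-- Wilf's inequality for modular numerical semigroups, in the form `e g + c ≤ e c`. -/
theorem wilf (a b m c : ℕ) (hb : 0 < b) (hm2 : 2 ≤ m) (hm : m ∈ modS a b)
    (hmin : ∀ x, 0 < x → x < m → x ∉ modS a b) (hc : ∀ x, c ≤ x → x ∈ modS a b)
    (hc1 : c - 1 ∉ modS a b) [DecidablePred (· ∈ modS a b)] :
    (Irr (modS a b)).ncard * ((range c).filter (· ∉ modS a b)).card + c ≤
      (Irr (modS a b)).ncard * c := by
  have hcm : m ≤ c := by
    by_contra h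
    exact hmin (m - 1) (by omega) (by omega) (hc _ (by omega))
  by_cases h0 : a * m % b = 0
  · exact special a b m c hb hm2 hm hmin hcm hc hc1 h0
  by_cases h1 : a * m % b = m
  · -- duality
    have hab : a % b < b := Nat.mod_lt _ hb
    have hmb : m < b := by rw [← h1]; exact Nat.mod_lt _ hb
    have hS : modS a b = modS (b + 1 - a % b) b := by
      rw [modS_mod]; exact dual _ _ b (by omega)
    have h2 : (b + 1 - a % b) * m % b = 0 := by
      have h3 : (a % b) * m % b = m := by rw [Nat.mod_mul_mod]; exact h1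
      rw [dual_aux (a % b) (b + 1 - a % b) b m (by omega) (by omega), h3]
      simp
    revert hm hmin hc hc1
    have key : ∀ (S T : AddSubmonoid ℕ), S = T → ∀ [DecidablePred (· ∈ S)] [DecidablePred (· ∈ T)],
        (m ∈ T → (∀ x, 0 < x → x < m → x ∉ T) → (∀ x, c ≤ x → x ∈ T) → c - 1 ∉ T →
          (Irr T).ncard * ((range c).filter (· ∉ T)).card + c ≤ (Irr T).ncard * c) →
        (m ∈ S → (∀ x, 0 < x → x < m → x ∉ S) → (∀ x, c ≤ x → x ∈ S) → c - 1 ∉ S →
          (Irr S).ncard * ((range c).filter (· ∉ S)).card + c ≤ (Irr S).ncard * c) := by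
      intro S T hST _ _ hT
      subst hST
      intro q1 q2 q3 q4
      convert hT q1 q2 q3 q4
    classical
    refine key _ _ hS ?_
    intro hm hmin hc hc1
    exact special (b + 1 - a % b) b m c hb hm2 hm hmin hcm hc hc1 h2
  · exact generic a b m c hb hm2 hm hmin hcm hc hc1 h0 h1

end Pool.Agent.V11304.MW
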